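import Mathlib

open Filter

namespace Pool.Agent.TwistedRatio

variable {G : Type*} [Group G]

/-- The ball of radius `n` about the identity in the word metric of `X`: all products of at
most `n` elements of `X ∪ X⁻¹`. -/
def ball (X : Set G) (n : ℕ) : Set G :=
  {g | ∃ l : List G, l.length ≤ n ∧ (∀ s ∈ l, s ∈ X ∨ s⁻¹ ∈ X) ∧ l.prod = g}

/-- `x` and `y` are `φ`-conjugate: `x = z y φ(z)⁻¹` for some `z`. -/
def TConj (φ : G →* G) (x y : G) : Prop := ∃ z : G, x = z * y * (φ z)⁻¹

/-- The set of `φ`-conjugacy classes having a representative in the ball of radius `n`. -/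
def classes (X : Set G) (φ : G →* G) (n : ℕ) : Set (Set G) :=
  {C | ∃ x ∈ ball X n, C = {y | TConj φ x y}}

/-- The twisted conjugacy ratio. -/
noncomputable def tcr (X : Set G) (φ : G →* G) : ℝ :=
  limsup (fun n : ℕ => ((classes X φ n).ncard : ℝ) / ((ball X n).ncard : ℝ)) atTop

/-- The degree of twisted commutativity. -/
noncomputable def tdc (X : Set G) (φ : G →* G) : ℝ :=
  limsup (fun n : ℕ =>
    (({p : G × G | p.1 ∈ ball X n ∧ p.2 ∈ ball X n ∧ p.1 * p.2 = p.2 * φ p.1}).ncard : ℝ) /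
      ((ball X n).ncard : ℝ) ^ 2) atTop

theorem TConj.refl (φ : G →* G) (x : G) : TConj φ x x := ⟨1, by simp⟩

theorem TConj.symm {φ : G →* G} {x y : G} (h : TConj φ x y) : TConj φ y x := by
  obtain ⟨z, rfl⟩ := h
  exact ⟨z⁻¹, by simp [mul_assoc]⟩

theorem TConj.trans {φ : G →* G} {x y w : G} (h : TConj φ x y) (h' : TConj φ y w) :
    TConj φ x w := by
  obtain ⟨z, rfl⟩ := h
  obtain ⟨z', rfl⟩ := h'
  exact ⟨z * z', by simp [mul_assoc]⟩

theorem one_mem_ball (X : Set G) (n : ℕ) : (1 : G) ∈ ball X n := ⟨[], by simp⟩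

theorem ball_mul {X : Set G} {m n : ℕ} {g h : G} (hg : g ∈ ball X m) (hh : h ∈ ball X n) :
    g * h ∈ ball X (m + n) := by
  obtain ⟨l, hl, hl', rfl⟩ := hg
  obtain ⟨k, hk, hk', rfl⟩ := hh
  refine ⟨l ++ k, by simp; omega, ?_, by simp⟩
  intro s hs
  rcases List.mem_append.1 hs with h | h
  · exact hl' s h
  · exact hk' s h

theorem ball_inv {X : Set G} {n : ℕ} {g : G} (hg : g ∈ ball X n) : g⁻¹ ∈ ball X n := by
  obtain ⟨l, hl, hl', rfl⟩ := hg
  refine ⟨(l.map (·⁻¹)).reverse, by simpa using hl, ?_, ?_⟩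
  · intro s hs
    simp only [List.mem_reverse, List.mem_map] at hs
    obtain ⟨t, ht, rfl⟩ := hs
    rcases hl' t ht with h | h
    · right; simpa using h
    · left; exact h
  · rw [List.prod_inv_reverse]

theorem ball_mono {X : Set G} {m n : ℕ} (h : m ≤ n) : ball X m ⊆ ball X n := by
  rintro g ⟨l, hl, hl', rfl⟩
  exact ⟨l, hl.trans h, hl', rfl⟩

theorem ball_finite {X : Set G} (hX : X.Finite) (n : ℕ) : (ball X n).Finite := by
  classical
  have hY : (X ∪ X⁻¹).Finite := hX.union hX.inv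
  have : (ball X n) ⊆ (fun l : List G => l.prod) ''
      {l : List G | l.length ≤ n ∧ ∀ s ∈ l, s ∈ X ∪ X⁻¹} := by
    rintro g ⟨l, hl, hl', rfl⟩
    refine ⟨l, ⟨hl, ?_⟩, rfl⟩
    intro s hs
    rcases hl' s hs with h | h
    · exact Or.inl h
    · exact Or.inr (by simpa using h)
  refine Set.Finite.subset (Set.Finite.image _ ?_) this
  haveI : Finite (↥(X ∪ X⁻¹)) := hY.to_subtype
  have h1 := (List.finite_length_le (↥(X ∪ X⁻¹)) n)
  refine (h1.image (fun l => l.map Subtype.val)).subset ?_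
  rintro l ⟨hl, hl'⟩
  refine ⟨l.attach.map (fun s => ⟨s.1, hl' s.1 s.2⟩), ?_, ?_⟩
  · simpa using hl
  · simp

theorem classes_finite {X : Set G} (hX : X.Finite) (φ : G →* G) (n : ℕ) :
    (classes X φ n).Finite := by
  refine ((ball_finite hX n).image (fun x => {y | TConj φ x y})).subset ?_
  rintro C ⟨x, hx, rfl⟩
  exact ⟨x, hx, rfl⟩

theorem ncard_classes_le {X : Set G} (hX : X.Finite) (φ : G →* G) (n : ℕ) :
    (classes X φ n).ncard ≤ (ball X n).ncard := by
  have : classes X φ n = (fun x => {y | TConj φ x y}) '' ball X n := by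
    ext C
    constructor
    · rintro ⟨x, hx, rfl⟩
      exact ⟨x, hx, rfl⟩
    · rintro ⟨x, hx, rfl⟩
      exact ⟨x, hx, rfl⟩
  rw [this]
  exact Set.ncard_image_le (ball_finite hX n)

theorem ncard_ball_pos {X : Set G} (hX : X.Finite) (n : ℕ) : 0 < (ball X n).ncard :=
  (Set.ncard_pos (ball_finite hX n)).2 ⟨1, one_mem_ball X n⟩

/-- Every element of the ball of radius `m + n` is a product. -/
theorem ball_add_subset (X : Set G) (m n : ℕ) :
    ball X (m + n) ⊆ (fun p : G × G => p.1 * p.2) '' (ball X m ×ˢ ball X n) := by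
  rintro g ⟨l, hl, hl', rfl⟩
  refine ⟨((l.take m).prod, (l.drop m).prod), ⟨⟨l.take m, ?_, ?_, rfl⟩,
    ⟨l.drop m, ?_, ?_, rfl⟩⟩, ?_⟩
  · simp
  · intro s hs; exact hl' s (List.mem_of_mem_take hs)
  · simp; omega
  · intro s hs; exact hl' s (List.mem_of_mem_drop hs)
  · simp

theorem ncard_ball_add_le {X : Set G} (hX : X.Finite) (m n : ℕ) :
    (ball X (m + n)).ncard ≤ (ball X m).ncard * (ball X n).ncard := by
  have h1 : (ball X (m + n)).ncard ≤
      ((fun p : G × G => p.1 * p.2) '' (ball X m ×ˢ ball X n)).ncard :=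
    Set.ncard_le_ncard (ball_add_subset X m n)
      (((ball_finite hX m).prod (ball_finite hX n)).image _)
  have h2 := Set.ncard_image_le (f := fun p : G × G => p.1 * p.2)
    ((ball_finite hX m).prod (ball_finite hX n))
  rw [Set.ncard_prod] at h2
  exact h1.trans h2

/-- A subset `D` of good elements gives a lower bound for the number of classes. -/
theorem ncard_classes_ge {X : Set G} (hX : X.Finite) (φ : G →* G) (D : Set G)
    (hD : ∀ x ∈ D, ∀ y ∈ D, TConj φ x y → x = y) (n : ℕ) :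
    (D ∩ ball X n).ncard ≤ (classes X φ n).ncard := by
  refine Set.ncard_le_ncard_of_injOn (fun x => {y | TConj φ x y}) ?_ ?_ (classes_finite hX φ n)
  · rintro x ⟨_, hx⟩
    exact ⟨x, hx, rfl⟩
  · rintro x ⟨hx, _⟩ y ⟨hy, _⟩ hxy
    have : y ∈ {w | TConj φ y w} := TConj.refl φ y
    have h2 : y ∈ {w | TConj φ x w} := by
      have := hxy
      simp only at this
      rw [this]
      exact TConj.refl φ y
    exact hD x hx y hy h2

/-- Criterion for a positive twisted conjugacy ratio. -/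
theorem tcr_pos_of_good {X : Set G} (hX : X.Finite) (φ : G →* G) (D : Set G)
    (hD : ∀ x ∈ D, ∀ y ∈ D, TConj φ x y → x = y) (c : ℕ)
    (hc : ∀ n, (ball X n).ncard ≤ (D ∩ ball X (n + c)).ncard) :
    0 < tcr X φ := by
  have hpos : (0 : ℝ) < ((ball X c).ncard : ℝ) := by exact_mod_cast ncard_ball_pos hX c
  have hle : (1 : ℝ) / (ball X c).ncard ≤ tcr X φ := by
    refine le_limsup_of_frequently_le ?_ ?_
    · refine Filter.Eventually.frequently ?_
      filter_upwards [eventually_ge_atTop c] with n hn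
      obtain ⟨m, rfl⟩ := Nat.exists_eq_add_of_le' hn
      have h1 := ncard_ball_add_le hX m c
      have h2 := hc m
      have h3 := ncard_classes_ge hX φ D hD (m + c)
      have h4 : (0 : ℝ) < ((ball X (m + c)).ncard : ℝ) := by
        exact_mod_cast ncard_ball_pos hX (m + c)
      rw [div_le_div_iff₀ hpos h4, one_mul]
      have : (ball X (m + c)).ncard ≤ (classes X φ (m + c)).ncard * (ball X c).ncard :=
        h1.trans (Nat.mul_le_mul_right _ (h2.trans h3))
      exact_mod_cast this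
    · refine ⟨1, ?_⟩
      rw [Filter.eventually_map]
      filter_upwards with n
      have h4 : (0 : ℝ) < ((ball X n).ncard : ℝ) := by
        exact_mod_cast ncard_ball_pos hX n
      rw [div_le_one h4]
      exact_mod_cast ncard_classes_le hX φ n
  exact lt_of_lt_of_le (by positivity) hle

end Pool.Agent.TwistedRatio
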