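import Pool.Agent.TwistedRatio.NF

open Filter

namespace Pool.Agent.TwistedRatio

/-- The Coxeter matrix of the universal Coxeter group on `B`: `m(s,t) = ∞` (encoded as `0`)
for all `s ≠ t`. -/
def univMatrix (B : Type*) [DecidableEq B] : CoxeterMatrix B where
  M := Matrix.of fun i j => if i = j then 1 else 0
  isSymm := by
    ext i j
    simp only [Matrix.transpose_apply, Matrix.of_apply, eq_comm]
  diagonal := by simp
  off_diagonal := by
    intro i j hij
    simp [hij]

section NormalForm

variable {B : Type*} [DecidableEq B]

/-- the words -/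
abbrev RW (B : Type*) : Type _ := {l : List B // l.IsChain (fun s t => t ≠ s)}

/-- action of a letter -/
def act (s : B) (l : RW B) : RW B :=
  match l with
  | ⟨[], _⟩ => ⟨[s], by simp⟩
  | ⟨t :: l, h⟩ => if hts : t = s then ⟨l, h.tail⟩ else
      ⟨s :: t :: l, List.isChain_cons_cons.2 ⟨hts, h⟩⟩

theorem act_act (s : B) (l : RW B) : act s (act s l) = l := by
  obtain ⟨l, hl⟩ := l
  cases l with
  | nil => simp [act]
  | cons t l =>
    by_cases hts : t = s
    · subst hts
      cases l with
      | nil => simp [act]
      | cons u l =>
        have : u ≠ t := (List.isChain_cons_cons.1 hl).1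
        simp [act, this]
    · simp [act, hts]

/-- as a permutation -/
def actPerm (s : B) : Equiv.Perm (RW B) where
  toFun := act s
  invFun := act s
  left_inv := act_act s
  right_inv := act_act s

theorem actPerm_sq (s : B) : actPerm s * actPerm s = 1 := by
  ext l
  simp [actPerm, act_act]

theorem univMatrix_self (i : B) : (univMatrix B) i i = 1 := (univMatrix B).diagonal i

theorem univMatrix_ne {i j : B} (h : i ≠ j) : (univMatrix B) i j = 0 := by
  change (if i = j then 1 else 0) = 0
  simp [h]

theorem relation_self (i : B) :
    (univMatrix B).relation i i = FreeGroup.of i * FreeGroup.of i := by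
  rw [CoxeterMatrix.relation, univMatrix_self, pow_one]

theorem relation_ne {i j : B} (h : i ≠ j) : (univMatrix B).relation i j = 1 := by
  rw [CoxeterMatrix.relation, univMatrix_ne h, pow_zero]

theorem rel_actPerm : ∀ r ∈ (univMatrix B).relationsSet, FreeGroup.lift actPerm r = 1 := by
  rintro _ ⟨⟨i, j⟩, rfl⟩
  by_cases hij : i = j
  · subst hij
    simp only [Function.uncurry, relation_self, map_mul, FreeGroup.lift_apply_of, actPerm_sq]
  · simp only [Function.uncurry, relation_ne hij, map_one]

/-- the homomorphism to the permutations -/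
def toPerm : (univMatrix B).Group →* Equiv.Perm (RW B) := PresentedGroup.toGroup rel_actPerm

theorem toPerm_simple (s : B) : toPerm ((univMatrix B).simple s) = actPerm s :=
  PresentedGroup.toGroup.of rel_actPerm

/-- the normal form -/
def cnf (g : (univMatrix B).Group) : RW B := toPerm g ⟨[], by simp⟩

theorem cnf_simple_mul (s : B) (g : (univMatrix B).Group) :
    cnf ((univMatrix B).simple s * g) = act s (cnf g) := by
  simp [cnf, toPerm_simple, actPerm]

theorem simple_mul_self (s : B) : (univMatrix B).simple s * (univMatrix B).simple s = 1 := by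
  have := (univMatrix B).toCoxeterSystem.simple_mul_simple_self s
  simpa using this

theorem act_prod (s : B) (l : RW B) :
    (((act s l).1).map (univMatrix B).simple).prod =
      (univMatrix B).simple s * ((l.1).map (univMatrix B).simple).prod := by
  obtain ⟨l, hl⟩ := l
  cases l with
  | nil => simp [act]
  | cons t l =>
    by_cases hts : t = s
    · subst hts
      simp only [act, dif_pos, List.map_cons, List.prod_cons]
      rw [← mul_assoc, simple_mul_self, one_mul]
    · simp [act, hts]

theorem cnf_prod (g : (univMatrix B).Group) :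
    ((cnf g).1.map (univMatrix B).simple).prod = g := by
  induction g using (univMatrix B).toCoxeterSystem.simple_induction_left with
  | one => simp [cnf]
  | mul_simple_left w i ih =>
    rw [CoxeterMatrix.toCoxeterSystem_simple, cnf_simple_mul, act_prod, ih]

theorem cnf_of_prod (l : List B) (hl : l.IsChain (fun s t => t ≠ s)) :
    cnf ((l.map (univMatrix B).simple).prod) = ⟨l, hl⟩ := by
  induction l with
  | nil => simp [cnf]
  | cons s l ih =>
    rw [List.map_cons, List.prod_cons, cnf_simple_mul, ih hl.tail]
    cases l with
    | nil => simp [act]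
    | cons t l =>
      have : t ≠ s := (List.isChain_cons_cons.1 hl).1
      simp [act, this]

theorem simple_inv (s : B) : ((univMatrix B).simple s)⁻¹ = (univMatrix B).simple s :=
  inv_eq_of_mul_eq_one_left (simple_mul_self s)

/-- Normal forms in universal Coxeter groups. -/
def coxNF (B : Type*) [DecidableEq B] : NF (univMatrix B).Group B where
  inv := id
  invol := fun _ => rfl
  ι := (univMatrix B).simple
  ι_inv := fun s => (simple_inv s).symm
  nf := fun g => (cnf g).1
  nf_chain := fun g => (cnf g).2
  prod_nf := cnf_prod
  nf_prod := fun l hl => by rw [cnf_of_prod l hl]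

theorem cox_ball (n : ℕ) : ball (Set.range (univMatrix B).simple) n =
    {g | ((coxNF B).nf g).length ≤ n} := (coxNF B).ball_eq n

/-- the endomorphism `s ↦ s c(s) s` -/
theorem exists_endo (c : B → B) : ∃ φ : (univMatrix B).Group →* (univMatrix B).Group,
    ∀ s, φ ((univMatrix B).simple s) =
      (univMatrix B).simple s * (univMatrix B).simple (c s) * (univMatrix B).simple s := by
  have h : ∀ r ∈ (univMatrix B).relationsSet, FreeGroup.lift (fun s => (univMatrix B).simple s *
      (univMatrix B).simple (c s) * (univMatrix B).simple s) r = 1 := by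
    rintro _ ⟨⟨i, j⟩, rfl⟩
    by_cases hij : i = j
    · subst hij
      simp only [Function.uncurry, relation_self, map_mul, FreeGroup.lift_apply_of]
      have h1 := simple_mul_self (B := B)
      have h2 : ∀ a b : (univMatrix B).Group, a * a = 1 → b * b = 1 →
          (a * b * a) * (a * b * a) = 1 := by
        intro a b ha hb
        calc (a * b * a) * (a * b * a) = a * b * (a * a) * b * a := by group
          _ = a * (b * b) * a := by rw [ha]; group
          _ = 1 := by rw [hb, mul_one, ha]
      exact h2 _ _ (h1 i) (h1 (c i))
    · simp only [Function.uncurry, relation_ne hij, map_one]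
  exact ⟨PresentedGroup.toGroup h, fun s => PresentedGroup.toGroup.of h⟩

theorem cox_tcr_pos [Finite B] (hB : 3 ≤ Nat.card B) (c : B → B) (hc : ∀ s, c s ≠ s)
    (φ : (univMatrix B).Group →* (univMatrix B).Group)
    (hφ : ∀ s, φ ((univMatrix B).simple s) =
      (univMatrix B).simple s * (univMatrix B).simple (c s) * (univMatrix B).simple s) :
    0 < tcr (Set.range (univMatrix B).simple) φ := by
  classical
  have h3 : ∀ a b : B, ∃ d, d ≠ a ∧ d ≠ b := by
    intro a b
    have := Fintype.ofFinite B
    by_contra hcon
    push Not at hcon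
    have : (Finset.univ : Finset B) ⊆ {a, b} := by
      intro d _
      simp only [Finset.mem_insert, Finset.mem_singleton]
      by_cases h : d = a
      · exact Or.inl h
      · exact Or.inr (hcon d h)
    have h4 := Finset.card_le_card this
    have h5 := Finset.card_le_two (a := a) (b := b)
    rw [Finset.card_univ, ← Nat.card_eq_fintype_card] at h4
    omega
  have hne : Nonempty B := by
    rw [← not_isEmpty_iff]
    intro h
    rw [Nat.card_of_isEmpty] at hB
    omega
  obtain ⟨t₂⟩ := hne
  obtain ⟨t₁, ht1, ht2⟩ := h3 t₂ (c t₂)
  refine (coxNF B).tcr_pos (fun s => [s, c s, s]) _ (Set.finite_range _) cox_ball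
    ?_ ?_ ?_ ?_ _ ?_ t₁ t₂ ?_ ?_ h3
  · intro s
    simp only [NF.Red, coxNF, id_eq, List.isChain_cons_cons, List.isChain_singleton, and_true]
    exact ⟨hc s, (hc s).symm⟩
  · simp
  · simp
  · simp
  · intro s
    simpa [coxNF, mul_assoc] using hφ s
  · exact ht1.symm
  · intro p hp
    simp only [coxNF, id_eq, List.getElem?_cons_succ, List.getElem?_cons_zero,
      Option.some.injEq] at hp
    subst hp
    exact ht2.symm

/-- Universal Coxeter groups of rank at least three are not virtually abelian. -/
theorem cox_not_virt_abelian (a b c : B) (hab : a ≠ b) (hac : a ≠ c) (hbc : b ≠ c)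
    (H : Subgroup (univMatrix B).Group) [H.FiniteIndex] : ∃ x ∈ H, ∃ y ∈ H, x * y ≠ y * x := by
  set s := (univMatrix B).simple
  obtain ⟨n, hn, -, hxn⟩ := Subgroup.exists_pow_mem_of_index_ne_zero
    (Subgroup.FiniteIndex.index_ne_zero (H := H)) (s a * s b)
  obtain ⟨m, hm, -, hym⟩ := Subgroup.exists_pow_mem_of_index_ne_zero
    (Subgroup.FiniteIndex.index_ne_zero (H := H)) (s a * s c)
  refine ⟨_, hxn, _, hym, ?_⟩
  -- words
  let W : B → ℕ → List B := fun b n => (List.replicate n [a, b]).flatten
  have hWprod : ∀ b n, ((W b n).map s).prod = (s a * s b) ^ n := by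
    intro b n
    induction n with
    | zero => simp [W]
    | succ n ih =>
      have : W b (n + 1) = [a, b] ++ W b n := by simp [W, List.replicate_succ]
      rw [this, List.map_append, List.prod_append, ih, pow_succ']
      simp
  have hWcons : ∀ b n, W b (n + 1) = a :: b :: W b n := by
    intro b n; simp [W, List.replicate_succ]
  have hchain : ∀ b, a ≠ b → ∀ n, ∀ l : List B, l.IsChain (fun s t => t ≠ s) →
      (∀ x ∈ l.head?, x = a) → (W b n ++ l).IsChain (fun s t => t ≠ s) ∧
      (∀ x ∈ (W b n ++ l).head?, x = a) := by
    intro b hb n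
    induction n with
    | zero => intro l hl hl'; simpa [W] using ⟨hl, hl'⟩
    | succ n ih =>
      intro l hl hl'
      obtain ⟨h1, h2⟩ := ih l hl hl'
      rw [hWcons]
      refine ⟨?_, by simp⟩
      simp only [List.cons_append]
      refine List.isChain_cons_cons.2 ⟨hb.symm, ?_⟩
      cases hq : W b n ++ l with
      | nil => simp
      | cons q qs =>
        rw [hq] at h1 h2
        refine List.isChain_cons_cons.2 ⟨?_, h1⟩
        have : q = a := h2 q (by simp)
        rw [this]; exact hb
  intro heq
  have e1 : (s a * s b) ^ n * (s a * s c) ^ m = ((W b n ++ W c m).map s).prod := by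
    rw [List.map_append, List.prod_append, hWprod, hWprod]
  have e2 : (s a * s c) ^ m * (s a * s b) ^ n = ((W c m ++ W b n).map s).prod := by
    rw [List.map_append, List.prod_append, hWprod, hWprod]
  have r1 := hchain c hac m [] (by simp) (by simp)
  have r2 := hchain b hab n [] (by simp) (by simp)
  rw [List.append_nil] at r1 r2
  have r3 := (hchain b hab n _ r1.1 r1.2).1
  have r4 := (hchain c hac m _ r2.1 r2.2).1
  rw [e1, e2] at heq
  have n1 := (coxNF B).nf_prod _ r3
  have n2 := (coxNF B).nf_prod _ r4
  have n3 : W b n ++ W c m = W c m ++ W b n := by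
    rw [← n1, ← n2]
    exact congrArg (coxNF B).nf heq
  obtain ⟨n', rfl⟩ := Nat.exists_eq_succ_of_ne_zero hn.ne'
  obtain ⟨m', rfl⟩ := Nat.exists_eq_succ_of_ne_zero hm.ne'
  rw [hWcons, hWcons] at n3
  simp only [List.cons_append, List.cons.injEq] at n3
  exact hbc n3.2.1

end NormalForm

end Pool.Agent.TwistedRatio
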