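import Pool.Agent.TwistedRatio.NF

open Filter

namespace Pool.Agent.TwistedRatio

variable {α : Type*} [DecidableEq α]

theorem red_iff (l : List (α × Bool)) :
    FreeGroup.IsReduced l ↔ l.IsChain (fun s t => t ≠ (s.1, !s.2)) := by
  unfold FreeGroup.IsReduced
  constructor
  · intro h
    refine h.imp ?_
    rintro ⟨a, b⟩ ⟨c, d⟩ h1 h2
    simp only [Prod.mk.injEq] at h2
    have := h1 h2.1.symm
    simp only at this
    rw [h2.2] at this
    cases b <;> simp at this
  · intro h
    refine h.imp ?_
    rintro ⟨a, b⟩ ⟨c, d⟩ h1 h2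
    simp only at h2 ⊢
    subst h2
    cases b <;> cases d <;> simp at h1 ⊢

/-- Normal forms in free groups. -/
def freeNF (α : Type*) [DecidableEq α] : NF (FreeGroup α) (α × Bool) where
  inv := fun s => (s.1, !s.2)
  invol := by rintro ⟨a, b⟩; simp
  ι := fun s => FreeGroup.mk [s]
  ι_inv := by
    rintro ⟨a, b⟩
    simp [FreeGroup.inv_mk, FreeGroup.invRev]
  nf := FreeGroup.toWord
  nf_chain := fun g => (red_iff _).1 FreeGroup.isReduced_toWord
  prod_nf := by
    intro g
    conv_rhs => rw [← FreeGroup.mk_toWord (x := g)]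
    generalize FreeGroup.toWord g = l
    induction l with
    | nil => simp; rfl
    | cons a l ih =>
      rw [List.map_cons, List.prod_cons, ih, FreeGroup.mul_mk]
      rfl
  nf_prod := by
    intro l hl
    have : (l.map (fun s => FreeGroup.mk [s])).prod = FreeGroup.mk l := by
      clear hl
      induction l with
      | nil => simp; rfl
      | cons a l ih =>
        rw [List.map_cons, List.prod_cons, ih, FreeGroup.mul_mk]
        rfl
    rw [this, FreeGroup.toWord_mk]
    exact FreeGroup.IsReduced.reduce_eq ((red_iff l).2 hl)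

theorem free_ball (n : ℕ) : ball (Set.range (FreeGroup.of : α → FreeGroup α)) n =
    {g | ((freeNF α).nf g).length ≤ n} := by
  apply (freeNF α).ball_eq'
  · rintro ⟨a, b⟩
    cases b
    · right
      refine ⟨a, ?_⟩
      simp [freeNF, FreeGroup.of, FreeGroup.inv_mk, FreeGroup.invRev]
    · left
      exact ⟨a, rfl⟩
  · rintro _ ⟨a, rfl⟩
    exact ⟨(a, true), rfl⟩

theorem exists_third [Nontrivial α] (s t : α × Bool) : ∃ d : α × Bool, d ≠ s ∧ d ≠ t := by
  obtain ⟨a, b, hab⟩ := exists_pair_ne α
  by_contra hcon
  push Not at hcon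
  have h1 := hcon (a, true)
  have h2 := hcon (a, false)
  have h3 := hcon (b, true)
  by_cases h4 : (a, true) = s
  · have h5 : (a, false) ≠ s := by rw [← h4]; simp
    have h6 : (b, true) ≠ s := by
      rw [← h4]; intro h
      exact hab (congrArg Prod.fst h).symm
    have h7 := (h2 h5).trans (h3 h6).symm
    simp at h7
  · have h5 := h1 h4
    have h6 : (a, false) ≠ t := by rw [← h5]; simp
    have h7 : (b, true) ≠ t := by
      rw [← h5]; intro h
      exact hab (congrArg Prod.fst h).symm
    have h8 : (a, false) = s := by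
      by_contra h; exact h6 (h2 h)
    have h9 : (b, true) = s := by
      by_contra h; exact h7 (h3 h)
    have := h8.trans h9.symm
    simp at this

theorem free_tcr_pos [Finite α] [Nontrivial α] (r : ℕ) (hr : 2 ≤ r) :
    0 < tcr (Set.range (FreeGroup.of : α → FreeGroup α))
      (FreeGroup.lift fun a => FreeGroup.of a ^ r) := by
  obtain ⟨a, b, hab⟩ := exists_pair_ne α
  refine (freeNF α).tcr_pos (fun s => List.replicate r s) _ (Set.finite_range _) free_ball
    ?_ ?_ ?_ ?_ _ ?_ (b, true) (a, true) ?_ ?_ exists_third
  · rintro ⟨c, d⟩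
    apply List.isChain_replicate_of_rel
    change (c, d) ≠ (c, !d)
    simp
  · intro s
    rw [List.head?_replicate]
    simp; omega
  · intro s
    rw [List.getLast?_replicate]
    simp; omega
  · intro s
    simpa using hr
  · rintro ⟨c, d⟩
    rw [List.map_replicate, List.prod_replicate]
    cases d
    · have : (freeNF α).ι (c, false) = (FreeGroup.of c)⁻¹ := by
        simp [freeNF, FreeGroup.of, FreeGroup.inv_mk, FreeGroup.invRev]
      rw [this, map_inv, FreeGroup.lift_apply_of, inv_pow]
    · have : (freeNF α).ι (c, true) = FreeGroup.of c := rfl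
      rw [this, FreeGroup.lift_apply_of]
  · change (a, true) ≠ (b, !true)
    simp
  · intro p hp
    rw [List.getElem?_replicate] at hp
    split_ifs at hp
    simp only [Option.some.injEq] at hp
    subst hp
    change (a, !true) ≠ (b, !true)
    simpa using hab

end Pool.Agent.TwistedRatio
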