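import Pool.Agent.TwistedRatio.Defs

open Filter

namespace Pool.Agent.TwistedRatio

/-- Normal forms: the group `G` is a free product of infinite cyclic groups and groups of
order two, with letters `S`, inversion `inv` of letters, and reduced words `nf`. -/
structure NF (G : Type*) [Group G] (S : Type*) where
  inv : S → S
  invol : ∀ s, inv (inv s) = s
  ι : S → G
  ι_inv : ∀ s, ι (inv s) = (ι s)⁻¹
  nf : G → List S
  nf_chain : ∀ g, (nf g).IsChain (fun s t => t ≠ inv s)
  prod_nf : ∀ g, ((nf g).map ι).prod = g
  nf_prod : ∀ l : List S, l.IsChain (fun s t => t ≠ inv s) → nf ((l.map ι).prod) = l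

namespace NF

variable {G : Type*} [Group G] {S : Type*} (N : NF G S)

/-- reduced words -/
def Red (l : List S) : Prop := l.IsChain (fun s t => t ≠ N.inv s)

theorem nf_one : N.nf 1 = [] := by
  have := N.nf_prod [] (by simp)
  simpa using this

theorem nf_injective : Function.Injective N.nf := by
  intro g h hgh
  rw [← N.prod_nf g, hgh, N.prod_nf h]

theorem nf_ne_nil {g : G} (hg : g ≠ 1) : N.nf g ≠ [] := by
  intro h
  apply hg
  apply N.nf_injective
  rw [h, N.nf_one]

theorem length_ι_mul_le (s : S) (g : G) : (N.nf (N.ι s * g)).length ≤ (N.nf g).length + 1 := by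
  have hc := N.nf_chain g
  have hp := N.prod_nf g
  cases hg : N.nf g with
  | nil =>
    rw [hg] at hp
    simp only [List.map_nil, List.prod_nil] at hp
    have h1 := N.nf_prod [s] (by simp)
    simp only [List.map_cons, List.map_nil, List.prod_cons, List.prod_nil] at h1
    rw [← hp, h1]
    simp
  | cons t l =>
    rw [hg] at hc hp
    simp only [List.map_cons, List.prod_cons] at hp
    by_cases hts : t = N.inv s
    · have h1 : N.ι s * g = (l.map N.ι).prod := by
        rw [← hp, hts, N.ι_inv, ← mul_assoc, mul_inv_cancel, one_mul]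
      rw [h1, N.nf_prod l hc.tail]
      simp; omega
    · have h1 : N.ι s * g = ((s :: t :: l).map N.ι).prod := by
        rw [← hp]; simp
      rw [h1, N.nf_prod (s :: t :: l) (List.isChain_cons_cons.2 ⟨hts, hc⟩)]
      simp

theorem length_prod_mul_le (l : List S) (g : G) :
    (N.nf ((l.map N.ι).prod * g)).length ≤ l.length + (N.nf g).length := by
  induction l with
  | nil => simp
  | cons s l ih =>
    simp only [List.map_cons, List.prod_cons, List.length_cons]
    rw [mul_assoc]
    have := N.length_ι_mul_le s ((l.map N.ι).prod * g)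
    omega

theorem length_mul_le (g h : G) :
    (N.nf (g * h)).length ≤ (N.nf g).length + (N.nf h).length := by
  have := N.length_prod_mul_le (N.nf g) h
  rwa [N.prod_nf] at this

theorem length_prod_le (l : List S) : (N.nf ((l.map N.ι).prod)).length ≤ l.length := by
  have := N.length_prod_mul_le l 1
  simpa [N.nf_one] using this

theorem length_inv_le (g : G) : (N.nf g⁻¹).length ≤ (N.nf g).length := by
  have h : g⁻¹ = ((((N.nf g).map N.inv).reverse).map N.ι).prod := by
    conv_lhs => rw [← N.prod_nf g]
    rw [List.prod_inv_reverse, List.map_reverse, List.map_map, List.map_map]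
    congr 2
    apply List.map_congr_left
    intro s _
    simp [N.ι_inv]
  rw [h]
  refine (N.length_prod_le _).trans ?_
  simp

theorem length_inv (g : G) : (N.nf g⁻¹).length = (N.nf g).length := by
  apply le_antisymm (N.length_inv_le g)
  have := N.length_inv_le g⁻¹
  rwa [_root_.inv_inv] at this

theorem ball_eq (n : ℕ) : ball (Set.range N.ι) n = {g | (N.nf g).length ≤ n} := by
  ext g
  constructor
  · rintro ⟨l, hl, hl', rfl⟩
    have : ∀ l : List G, (∀ s ∈ l, s ∈ Set.range N.ι ∨ s⁻¹ ∈ Set.range N.ι) →
        (N.nf l.prod).length ≤ l.length := by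
      intro l
      induction l with
      | nil => intro _; simp [N.nf_one]
      | cons a l ih =>
        intro h
        have h1 := ih (fun s hs => h s (List.mem_cons_of_mem _ hs))
        have h2 : ∃ s, N.ι s = a := by
          rcases h a (by simp) with h | h
          · exact h
          · obtain ⟨s, hs⟩ := h
            exact ⟨N.inv s, by rw [N.ι_inv, hs, _root_.inv_inv]⟩
        obtain ⟨s, rfl⟩ := h2
        simp only [List.prod_cons, List.length_cons]
        have := N.length_ι_mul_le s l.prod
        omega
    exact (this l hl').trans hl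
  · intro hg
    refine ⟨(N.nf g).map N.ι, by simpa using hg, ?_, N.prod_nf g⟩
    intro s hs
    left
    obtain ⟨t, _, rfl⟩ := List.mem_map.1 hs
    exact ⟨t, rfl⟩

/-- a map with the same ball when only some letters are used as generators -/
theorem ball_eq' (X : Set G) (hX : ∀ s : S, N.ι s ∈ X ∨ (N.ι s)⁻¹ ∈ X)
    (hX' : X ⊆ Set.range N.ι) (n : ℕ) : ball X n = {g | (N.nf g).length ≤ n} := by
  rw [← N.ball_eq]
  ext g
  constructor
  · rintro ⟨l, hl, hl', rfl⟩
    refine ⟨l, hl, ?_, rfl⟩
    intro s hs
    rcases hl' s hs with h | h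
    · exact Or.inl (hX' h)
    · exact Or.inr (hX' h)
  · rintro ⟨l, hl, hl', rfl⟩
    refine ⟨l, hl, ?_, rfl⟩
    intro s hs
    have : ∃ t, N.ι t = s := by
      rcases hl' s hs with h | h
      · exact h
      · obtain ⟨t, ht⟩ := h
        exact ⟨N.inv t, by rw [N.ι_inv, ht, _root_.inv_inv]⟩
    obtain ⟨t, rfl⟩ := this
    exact hX t

variable (w : S → List S)

theorem flatMap_red (hw_chain : ∀ s, N.Red (w s)) (hw_head : ∀ s, (w s).head? = some s)
    (hw_last : ∀ s, (w s).getLast? = some s) (l : List S) (hl : N.Red l) :
    N.Red (l.flatMap w) ∧ (l.flatMap w).head? = l.head? := by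
  induction l with
  | nil => simp [Red]
  | cons s l ih =>
    have hl' : N.Red l := hl.tail
    obtain ⟨h1, h2⟩ := ih hl'
    constructor
    · rw [List.flatMap_cons]
      refine List.IsChain.append (hw_chain s) h1 ?_
      intro x hx y hy
      rw [hw_last s] at hx
      rw [h2] at hy
      cases l with
      | nil => simp at hy
      | cons t l =>
        simp only [List.head?_cons, Option.mem_def, Option.some.injEq] at hx hy
        subst hx; subst hy
        exact (List.isChain_cons_cons.1 hl).1
    · rw [List.flatMap_cons, List.head?_append, hw_head s]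
      simp

theorem map_prod_flatMap (φ : G →* G) (hφ : ∀ s, φ (N.ι s) = ((w s).map N.ι).prod)
    (l : List S) : φ ((l.map N.ι).prod) = ((l.flatMap w).map N.ι).prod := by
  induction l with
  | nil => simp
  | cons s l ih =>
    simp only [List.map_cons, List.prod_cons, map_mul, List.flatMap_cons, List.map_append,
      List.prod_append]
    rw [ih, hφ]

theorem length_flatMap_ge (hw_len : ∀ s, 2 ≤ (w s).length) (l : List S) :
    2 * l.length ≤ (l.flatMap w).length := by
  induction l with
  | nil => simp
  | cons s l ih =>
    simp only [List.length_cons, List.flatMap_cons, List.length_append]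
    have := hw_len s
    omega

theorem red_reverse_inv {l : List S} (hl : N.Red l) : N.Red ((l.map N.inv).reverse) := by
  unfold Red at *
  rw [List.isChain_reverse, List.isChain_map]
  refine hl.imp ?_
  intro a b hab h
  apply hab
  rw [N.invol] at h
  exact h.symm

theorem nf_inv (g : G) : N.nf g⁻¹ = ((N.nf g).map N.inv).reverse := by
  have h : g⁻¹ = ((((N.nf g).map N.inv).reverse).map N.ι).prod := by
    conv_lhs => rw [← N.prod_nf g]
    rw [List.prod_inv_reverse, List.map_reverse, List.map_map, List.map_map]
    congr 2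
    apply List.map_congr_left
    intro s _
    simp [N.ι_inv]
  conv_lhs => rw [h]
  exact N.nf_prod _ (N.red_reverse_inv (N.nf_chain g))

/-- The good elements: those whose normal form ends with `t₁ t₂` and whose first letter
is not the inverse of `t₂`. -/
def Good (t₁ t₂ : S) : Set G :=
  {y | ∃ f u, N.nf y = f :: (u ++ [t₁, t₂]) ∧ f ≠ N.inv t₂}

/-- Key inequality. -/
theorem lt_length (hw_chain : ∀ s, N.Red (w s)) (hw_head : ∀ s, (w s).head? = some s)
    (hw_last : ∀ s, (w s).getLast? = some s) (hw_len : ∀ s, 2 ≤ (w s).length)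
    (φ : G →* G) (hφ : ∀ s, φ (N.ι s) = ((w s).map N.ι).prod)
    (t₁ t₂ : S) (ht' : ∀ p, (w (N.inv t₂))[1]? = some p → p ≠ N.inv t₁)
    (y : G) (hy : y ∈ N.Good t₁ t₂) (z : G) (hz : z ≠ 1) :
    (N.nf y).length < (N.nf (z⁻¹ * y * φ z)).length := by
  obtain ⟨f, u, hy, hf⟩ := hy
  have hred := N.flatMap_red w hw_chain hw_head hw_last (N.nf z) (N.nf_chain z)
  have hφz : φ z = (((N.nf z).flatMap w).map N.ι).prod := by
    conv_lhs => rw [← N.prod_nf z]
    exact N.map_prod_flatMap w φ hφ _
  have hlen := length_flatMap_ge w hw_len (N.nf z)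
  have hyp : y = ((N.nf y).map N.ι).prod := (N.prod_nf y).symm
  have hyc : N.Red (N.nf y) := N.nf_chain y
  cases hz' : N.nf z with
  | nil => exact absurd hz' (N.nf_ne_nil hz)
  | cons p q =>
    rw [hy] at hyc hyp
    obtain ⟨hr1, hr2⟩ := hred
    by_cases hp : p = N.inv t₂
    · -- one cancellation at the right, none at the left
      have hzinv := N.nf_inv z
      have hzinvp : z⁻¹ = ((N.nf z⁻¹).map N.ι).prod := (N.prod_nf z⁻¹).symm
      have hzinvc : N.Red (N.nf z⁻¹) := N.nf_chain z⁻¹
      rw [hzinv] at hzinvp hzinvc
      rw [hz'] at hr1 hr2 hlen hφz hzinvp hzinvc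
      obtain ⟨p₁, p₂, rest, hwp⟩ : ∃ p₁ p₂ rest, w p = p₁ :: p₂ :: rest := by
        have := hw_len p
        match hw : w p with
        | [] => rw [hw] at this; simp at this
        | [a] => rw [hw] at this; simp at this
        | a :: b :: l => exact ⟨a, b, l, rfl⟩
      have hp1 : p₁ = p := by
        have := hw_head p
        rw [hwp] at this
        simpa using this
      subst hp1
      have hp2 : p₂ ≠ N.inv t₁ := by
        apply ht'
        rw [← hp, hwp]
        simp
      rw [List.flatMap_cons, hwp] at hr1 hlen hφz
      have hchain : N.Red ((f :: (u ++ [t₁])) ++ (p₂ :: (rest ++ q.flatMap w))) := by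
        refine List.IsChain.append ?_ ?_ ?_
        · have : f :: (u ++ [t₁, t₂]) = (f :: (u ++ [t₁])) ++ [t₂] := by simp
          rw [this] at hyc
          exact List.IsChain.left_of_append hyc
        · simpa using hr1.tail
        · intro x hx y hy
          have hx' : (f :: (u ++ [t₁])).getLast? = some t₁ := by
            rw [← List.cons_append, List.getLast?_append]
            simp
          rw [hx'] at hx
          simp only [Option.mem_def, Option.some.injEq] at hx
          simp only [List.head?_cons, Option.mem_def, Option.some.injEq] at hy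
          subst hx; subst hy
          exact hp2
      have hchain2 : N.Red ((((p₁ :: q).map N.inv).reverse) ++
          ((f :: (u ++ [t₁])) ++ (p₂ :: (rest ++ q.flatMap w)))) := by
        refine List.IsChain.append hzinvc hchain ?_
        intro x hx y hy
        simp only [List.map_cons, List.reverse_cons, List.getLast?_append, List.getLast?_singleton,
          Option.some_or, Option.mem_def, Option.some.injEq] at hx
        simp only [List.cons_append, List.head?_cons, Option.mem_def, Option.some.injEq] at hy
        subst hx; subst hy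
        rw [N.invol, hp]
        exact hf
      have hprod : z⁻¹ * y * φ z = (((((p₁ :: q).map N.inv).reverse) ++
          ((f :: (u ++ [t₁])) ++ (p₂ :: (rest ++ q.flatMap w)))).map N.ι).prod := by
        rw [List.map_append, List.prod_append, ← hzinvp, mul_assoc]
        congr 1
        rw [hyp, hφz]
        simp only [List.map_append, List.map_cons, List.map_nil, List.prod_append, List.prod_cons,
          List.prod_nil, List.cons_append, mul_one]
        rw [hp, N.ι_inv]
        simp only [mul_assoc, mul_inv_cancel_left]
      rw [hprod, N.nf_prod _ hchain2, hy]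
      simp only [List.length_append, List.length_cons, List.length_nil, List.length_reverse,
        List.length_map] at hlen ⊢
      omega
    · rw [hz'] at hr1 hr2 hlen hφz
      have hchain : N.Red ((f :: (u ++ [t₁, t₂])) ++ (p :: q).flatMap w) := by
        refine List.IsChain.append hyc hr1 ?_
        intro x hx y hy
        rw [hr2] at hy
        have hx' : (f :: (u ++ [t₁, t₂])).getLast? = some t₂ := by
          rw [← List.cons_append, List.getLast?_append]
          simp
        rw [hx'] at hx
        simp only [Option.mem_def, Option.some.injEq] at hx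
        simp only [List.head?_cons, Option.mem_def, Option.some.injEq] at hy
        subst hx; subst hy
        exact hp
      have hprod : y * φ z = (((f :: (u ++ [t₁, t₂])) ++ (p :: q).flatMap w).map N.ι).prod := by
        conv_lhs => rw [hyp, hφz]
        rw [List.map_append, List.prod_append]
      have h1 := N.length_mul_le z (z⁻¹ * y * φ z)
      have h2 : z * (z⁻¹ * y * φ z) = y * φ z := by group
      rw [h2, hprod, N.nf_prod _ hchain, List.length_append, hz'] at h1
      rw [hy]
      have h3 : (p :: q).length = q.length + 1 := by simp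
      omega

theorem good_unique (hw_chain : ∀ s, N.Red (w s)) (hw_head : ∀ s, (w s).head? = some s)
    (hw_last : ∀ s, (w s).getLast? = some s) (hw_len : ∀ s, 2 ≤ (w s).length)
    (φ : G →* G) (hφ : ∀ s, φ (N.ι s) = ((w s).map N.ι).prod)
    (t₁ t₂ : S) (ht' : ∀ p, (w (N.inv t₂))[1]? = some p → p ≠ N.inv t₁) :
    ∀ x ∈ N.Good t₁ t₂, ∀ y ∈ N.Good t₁ t₂, TConj φ x y → x = y := by
  have key : ∀ y ∈ N.Good t₁ t₂, ∀ z : G, z ≠ 1 →
      (N.nf y).length < (N.nf (z * y * (φ z)⁻¹)).length := by
    intro y hy z hz
    have := N.lt_length w hw_chain hw_head hw_last hw_len φ hφ t₁ t₂ ht' y hy z⁻¹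
      (by simpa using hz)
    simpa using this
  rintro x hx y hy ⟨z, hz⟩
  by_cases h1 : z = 1
  · subst h1; simpa using hz
  · have h2 := key y hy z h1
    have h3 := key x hx z⁻¹ (by simpa using h1)
    rw [← hz] at h2
    have h4 : z⁻¹ * x * (φ z⁻¹)⁻¹ = y := by
      rw [hz]; simp [mul_assoc]
    rw [h4] at h3
    omega

theorem good_count [Finite S] (X : Set G) (hX : X.Finite)
    (hball : ∀ n, ball X n = {g | (N.nf g).length ≤ n}) (t₁ t₂ : S) (ht : t₂ ≠ N.inv t₁)
    (hd : ∀ a b : S, ∃ d, d ≠ a ∧ d ≠ b) (n : ℕ) :
    (ball X n).ncard ≤ (N.Good t₁ t₂ ∩ ball X (n + 4)).ncard := by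
  classical
  choose c hc1 hc2 using hd
  -- the first letter
  let E : List S → S := fun u => (u.head?.map (fun s => c (N.inv t₂) (N.inv s))).getD
    (c (N.inv t₂) (N.inv t₂))
  -- the connecting letter
  let D : List S → S := fun u => (u.getLast?.map (fun s => c (N.inv s) (N.inv t₁))).getD t₁
  have hE : ∀ u, N.Red u → N.Red (E u :: u) ∧ E u ≠ N.inv t₂ := by
    intro u hu
    cases u with
    | nil =>
      refine ⟨by simp [Red], ?_⟩
      simpa [E] using hc1 _ _
    | cons a u =>
      refine ⟨List.isChain_cons_cons.2 ⟨?_, hu⟩, ?_⟩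
      · intro h
        have h1 := hc2 (N.inv t₂) (N.inv a)
        apply h1
        have h2 : E (a :: u) = c (N.inv t₂) (N.inv a) := by simp [E]
        rw [← h2]
        have h3 := congrArg N.inv h
        rw [N.invol] at h3
        exact h3.symm
      · simpa [E] using hc1 _ _
  have hDchain : ∀ u, u ≠ [] → N.Red u → N.Red (u ++ [D u, t₁, t₂]) := by
    intro u hu0 hu
    obtain ⟨s, hs⟩ : ∃ s, u.getLast? = some s := by
      cases h : u.getLast? with
      | none => exact absurd (List.getLast?_eq_none_iff.1 h) hu0
      | some s => exact ⟨s, rfl⟩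
    have hDu : D u = c (N.inv s) (N.inv t₁) := by simp [D, hs]
    refine List.IsChain.append hu ?_ ?_
    · simp only [List.isChain_cons_cons, List.isChain_singleton, and_true]
      refine ⟨?_, ht⟩
      intro h
      apply hc2 (N.inv s) (N.inv t₁)
      rw [← hDu]
      conv_rhs => rw [h]
      rw [N.invol]
    · intro x hx y hy
      simp only [List.head?_cons, Option.mem_def, Option.some.injEq] at hy
      subst hy
      rw [Option.mem_def, hs, Option.some.injEq] at hx
      subst hx
      rw [hDu]
      exact hc1 _ _
  let W : G → List S := fun g => (E (N.nf g) :: N.nf g) ++ [D (E (N.nf g) :: N.nf g), t₁, t₂]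
  have hW : ∀ g, N.Red (W g) := fun g =>
    hDchain _ (by simp) (hE _ (N.nf_chain g)).1
  refine Set.ncard_le_ncard_of_injOn (fun g => (((W g).map N.ι).prod)) ?_ ?_
    ((ball_finite hX _).inter_of_right _)
  · intro g hg
    have h1 := N.nf_prod _ (hW g)
    constructor
    · refine ⟨E (N.nf g), N.nf g ++ [D (E (N.nf g) :: N.nf g)], ?_, (hE _ (N.nf_chain g)).2⟩
      rw [h1]
      simp [W]
    · rw [hball] at hg ⊢
      simp only [Set.mem_ofPred_eq] at hg ⊢
      rw [h1]
      simp only [W, List.length_append, List.length_cons, List.length_nil]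
      omega
  · intro g _ h _ hgh
    simp only at hgh
    have h1 := N.nf_prod _ (hW g)
    have h2 := N.nf_prod _ (hW h)
    rw [hgh, h2] at h1
    apply N.nf_injective
    have h3 := congrArg List.length h1
    simp only [W, List.length_append, List.length_cons, List.length_nil] at h3
    have h4 := List.append_inj_left h1 (by simp only [List.length_cons]; omega)
    exact (List.cons.inj h4).2.symm

/-- Abstract theorem. -/
theorem tcr_pos [Finite S] (X : Set G) (hX : X.Finite)
    (hball : ∀ n, ball X n = {g | (N.nf g).length ≤ n})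
    (hw_chain : ∀ s, N.Red (w s)) (hw_head : ∀ s, (w s).head? = some s)
    (hw_last : ∀ s, (w s).getLast? = some s) (hw_len : ∀ s, 2 ≤ (w s).length)
    (φ : G →* G) (hφ : ∀ s, φ (N.ι s) = ((w s).map N.ι).prod)
    (t₁ t₂ : S) (ht : t₂ ≠ N.inv t₁) (ht' : ∀ p, (w (N.inv t₂))[1]? = some p → p ≠ N.inv t₁)
    (hd : ∀ a b : S, ∃ d, d ≠ a ∧ d ≠ b) :
    0 < tcr X φ :=
  tcr_pos_of_good hX φ (N.Good t₁ t₂)
    (N.good_unique w hw_chain hw_head hw_last hw_len φ hφ t₁ t₂ ht') 4
    (N.good_count X hX hball t₁ t₂ ht hd)

end NF

end Pool.Agent.TwistedRatio
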